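import Mathlib

open Finset Filter Topology

namespace Pool.Agent.X171.SC

variable {𝕜 : Type} [RCLike 𝕜]

/-- The average of `‖f‖ ^ p` over the first `m ^ k` integers. -/
noncomputable def Am (p : ℝ) (m k : ℕ) (f : ℕ → 𝕜) : ℝ :=
  ((m : ℝ) ^ k)⁻¹ * ∑ i ∈ range (m ^ k), ‖f i‖ ^ p

variable {p : ℝ} {m : ℕ}

lemma Am_nonneg (k : ℕ) (f : ℕ → 𝕜) : 0 ≤ Am p m k f := by
  unfold Am
  positivity

lemma Am_zero (hp : 0 < p) (k : ℕ) : Am p m k (0 : ℕ → 𝕜) = 0 := by
  unfold Am
  simp [Real.zero_rpow hp.ne']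

lemma Am_neg (k : ℕ) (f : ℕ → 𝕜) : Am p m k (-f) = Am p m k f := by
  unfold Am
  simp

lemma Am_add_le (hp : 0 < p) (hp1 : p ≤ 1) (k : ℕ) (f g : ℕ → 𝕜) :
    Am p m k (f + g) ≤ Am p m k f + Am p m k g := by
  unfold Am
  rw [← mul_add, ← Finset.sum_add_distrib]
  apply mul_le_mul_of_nonneg_left _ (by positivity)
  apply Finset.sum_le_sum
  intro i _
  calc ‖(f + g) i‖ ^ p ≤ (‖f i‖ + ‖g i‖) ^ p :=
        Real.rpow_le_rpow (norm_nonneg _) (norm_add_le _ _) hp.le
    _ ≤ _ := Real.rpow_add_le_add_rpow (norm_nonneg _) (norm_nonneg _) hp.le hp1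

lemma Am_sum_le (hp : 0 < p) (hp1 : p ≤ 1) (k : ℕ) {ι : Type} (s : Finset ι)
    (f : ι → ℕ → 𝕜) : Am p m k (∑ i ∈ s, f i) ≤ ∑ i ∈ s, Am p m k (f i) := by
  classical
  induction s using Finset.induction_on with
  | empty => simp [Am_zero hp]
  | insert a s ha ih =>
    rw [Finset.sum_insert ha, Finset.sum_insert ha]
    exact (Am_add_le hp hp1 k _ _).trans (by linarith)

lemma Am_smul (c : 𝕜) (k : ℕ) (f : ℕ → 𝕜) :
    Am p m k (c • f) = ‖c‖ ^ p * Am p m k f := by
  unfold Am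
  rw [Finset.mul_sum, Finset.mul_sum, Finset.mul_sum]
  apply Finset.sum_congr rfl
  intro i _
  rw [Pi.smul_apply, norm_smul, Real.mul_rpow (norm_nonneg _) (norm_nonneg _)]
  ring

lemma sum_periodic (F : ℕ → ℝ) (c : ℕ) (h : Function.Periodic F c) (r : ℕ) :
    ∑ i ∈ range (r * c), F i = r * ∑ i ∈ range c, F i := by
  induction r with
  | zero => simp
  | succ r ih =>
    rw [Nat.add_mul, Nat.one_mul, Finset.sum_range_add, ih]
    have : ∀ x ∈ range c, F (r * c + x) = F x := by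
      intro x _
      rw [add_comm]
      exact h.nat_mul r x
    rw [Finset.sum_congr rfl this]
    push_cast
    ring

lemma Am_eq (hm : 0 < m) {k n : ℕ} {f : ℕ → 𝕜} (h : Function.Periodic f (m ^ k)) (hkn : k ≤ n) :
    Am p m n f = Am p m k f := by
  obtain ⟨j, rfl⟩ := Nat.exists_eq_add_of_le hkn
  unfold Am
  have h1 : Function.Periodic (fun i => ‖f i‖ ^ p) (m ^ k) := by
    intro i
    simp only [h i]
  rw [pow_add (m : ℕ) k j, mul_comm (m ^ k) (m ^ j), sum_periodic _ _ h1]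
  have hm' : (m : ℝ) ≠ 0 := by positivity
  push_cast
  rw [pow_add]
  field_simp

omit [RCLike 𝕜] in
lemma per_mono {k n : ℕ} {f : ℕ → 𝕜} (h : Function.Periodic f (m ^ k)) (hkn : k ≤ n) :
    Function.Periodic f (m ^ n) := by
  obtain ⟨j, rfl⟩ := Nat.exists_eq_add_of_le hkn
  rw [pow_add, mul_comm]
  exact h.nat_mul _

lemma per_zero (k : ℕ) : Function.Periodic (0 : ℕ → 𝕜) (m ^ k) := fun _ => rfl

lemma per_sum {k : ℕ} {ι : Type} (s : Finset ι) (f : ι → ℕ → 𝕜)
    (h : ∀ i ∈ s, Function.Periodic (f i) (m ^ k)) :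
    Function.Periodic (∑ i ∈ s, f i) (m ^ k) := by
  intro x
  rw [Finset.sum_apply, Finset.sum_apply]
  exact Finset.sum_congr rfl (fun i hi => h i hi x)

lemma per_smul {k : ℕ} (c : 𝕜) {f : ℕ → 𝕜} (h : Function.Periodic f (m ^ k)) :
    Function.Periodic (c • f) (m ^ k) := fun x => by
  simp only [Pi.smul_apply, h x]

lemma per_add {k : ℕ} {f g : ℕ → 𝕜} (h : Function.Periodic f (m ^ k))
    (h' : Function.Periodic g (m ^ k)) :
    Function.Periodic (f + g) (m ^ k) := fun x => by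
  simp only [Pi.add_apply, h x, h' x]

lemma per_sub {k : ℕ} {f g : ℕ → 𝕜} (h : Function.Periodic f (m ^ k))
    (h' : Function.Periodic g (m ^ k)) :
    Function.Periodic (f - g) (m ^ k) := fun x => by
  simp only [Pi.sub_apply, h x, h' x]

/-- `f` is a finite sum of `g k`, `g k` of period `m ^ k`, of total weighted cost at most `c`. -/
def Rep (p : ℝ) (m : ℕ) (f : ℕ → 𝕜) (c : ℝ) : Prop :=
  ∃ (n : ℕ) (g : ℕ → ℕ → 𝕜), (∀ k, Function.Periodic (g k) (m ^ k)) ∧
    (∑ k ∈ range n, g k = f) ∧ ∑ k ∈ range n, (3 : ℝ) ^ k * Am p m k (g k) ≤ c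

/-- The infimum of the costs. -/
noncomputable def nu (p : ℝ) (m : ℕ) (f : ℕ → 𝕜) : ℝ := sInf {c | Rep p m f c}

lemma Rep.pad (hp : 0 < p) {f : ℕ → 𝕜} {c : ℝ} (h : Rep p m f c) :
    ∃ n₀ : ℕ, ∃ g : ℕ → ℕ → 𝕜, (∀ k, Function.Periodic (g k) (m ^ k)) ∧
      ∀ N, n₀ ≤ N → (∑ k ∈ range N, g k = f) ∧
        ∑ k ∈ range N, (3 : ℝ) ^ k * Am p m k (g k) ≤ c := by
  obtain ⟨n, g, h1, h2, h3⟩ := h
  refine ⟨n, fun k => if k < n then g k else 0, ?_, ?_⟩
  · intro k
    dsimp only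
    split_ifs
    · exact h1 k
    · exact per_zero k
  · intro N hN
    have hs : range n ⊆ range N := Finset.range_subset_range.mpr hN
    constructor
    · rw [← h2]
      symm
      rw [← Finset.sum_subset hs]
      · apply Finset.sum_congr rfl
        intro k hk
        rw [if_pos (Finset.mem_range.mp hk)]
      · intro k _ hk
        rw [if_neg (fun hh => hk (Finset.mem_range.mpr hh))]
    · refine le_trans (le_of_eq ?_) h3
      symm
      rw [← Finset.sum_subset hs]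
      · apply Finset.sum_congr rfl
        intro k hk
        dsimp only
        rw [if_pos (Finset.mem_range.mp hk)]
      · intro k _ hk
        dsimp only
        rw [if_neg (fun hh => hk (Finset.mem_range.mpr hh)), Am_zero hp, mul_zero]

lemma Rep.nonneg {f : ℕ → 𝕜} {c : ℝ} (h : Rep p m f c) : 0 ≤ c := by
  obtain ⟨n, g, h1, h2, h3⟩ := h
  refine le_trans ?_ h3
  apply Finset.sum_nonneg
  intro k _
  exact mul_nonneg (by positivity) (Am_nonneg k _)

lemma Rep.add (hp : 0 < p) (hp1 : p ≤ 1) {f f' : ℕ → 𝕜} {c c' : ℝ} (h : Rep p m f c)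
    (h' : Rep p m f' c') : Rep p m (f + f') (c + c') := by
  obtain ⟨n, g, h1, h2⟩ := h.pad hp
  obtain ⟨n', g', h1', h2'⟩ := h'.pad hp
  obtain ⟨h3, h4⟩ := h2 (max n n') (le_max_left _ _)
  obtain ⟨h3', h4'⟩ := h2' (max n n') (le_max_right _ _)
  refine ⟨max n n', fun k => g k + g' k, fun k => per_add (h1 k) (h1' k), ?_, ?_⟩
  · rw [Finset.sum_add_distrib, h3, h3']
  · refine le_trans ?_ (add_le_add h4 h4')
    rw [← Finset.sum_add_distrib]
    apply Finset.sum_le_sum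
    intro k _
    rw [← mul_add]
    exact mul_le_mul_of_nonneg_left (Am_add_le hp hp1 k _ _) (by positivity)

lemma Rep.smul {f : ℕ → 𝕜} {c : ℝ} (h : Rep p m f c) (a : 𝕜) :
    Rep p m (a • f) (‖a‖ ^ p * c) := by
  obtain ⟨n, g, h1, h2, h3⟩ := h
  refine ⟨n, fun k => a • g k, fun k => per_smul a (h1 k), ?_, ?_⟩
  · rw [← Finset.smul_sum, h2]
  · refine le_trans (le_of_eq ?_) (mul_le_mul_of_nonneg_left h3 (by positivity))
    rw [Finset.mul_sum]
    apply Finset.sum_congr rfl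
    intro k _
    rw [Am_smul]
    ring

lemma rep_self (hp : 0 < p) {f : ℕ → 𝕜} {k : ℕ} (h : Function.Periodic f (m ^ k)) :
    Rep p m f ((3 : ℝ) ^ k * Am p m k f) := by
  refine ⟨k + 1, fun j => if j = k then f else 0, ?_, ?_, ?_⟩
  · intro j
    dsimp only
    split_ifs with hj
    · rw [hj]; exact h
    · exact per_zero j
  · rw [Finset.sum_ite_eq' (range (k + 1)) k (fun _ => f), if_pos (by simp)]
  · rw [Finset.sum_eq_single k]
    · simp
    · intro j _ hj
      dsimp only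
      rw [if_neg hj, Am_zero hp, mul_zero]
    · intro hk
      simp at hk

lemma Rep.Am_le (hm : 0 < m) (hp : 0 < p) (hp1 : p ≤ 1) {f : ℕ → 𝕜} {c : ℝ} (h : Rep p m f c)
    {N : ℕ} (hN : Function.Periodic f (m ^ N)) : Am p m N f ≤ c := by
  obtain ⟨n, g, h1, h2, h3⟩ := h
  rw [← Am_eq hm hN (le_max_left N n)]
  refine le_trans ?_ h3
  rw [← h2]
  refine (Am_sum_le hp hp1 _ _ _).trans ?_
  apply Finset.sum_le_sum
  intro k hk
  rw [Am_eq hm (h1 k) (le_trans (Finset.mem_range.mp hk).le (le_max_right _ _))]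
  nth_rewrite 1 [← one_mul (Am p m k (g k))]
  exact mul_le_mul_of_nonneg_right (one_le_pow₀ (by norm_num)) (Am_nonneg _ _)

lemma bdd (f : ℕ → 𝕜) : BddBelow {c | Rep p m f c} := ⟨0, fun _ h => h.nonneg⟩

lemma nu_le {f : ℕ → 𝕜} {c : ℝ} (h : Rep p m f c) : nu p m f ≤ c := csInf_le (bdd f) h

lemma exists_rep (hp : 0 < p) {f : ℕ → 𝕜} {k : ℕ} (h : Function.Periodic f (m ^ k)) {ε : ℝ}
    (hε : 0 < ε) : ∃ c, Rep p m f c ∧ c < nu p m f + ε := by
  have h1 : sInf {c | Rep p m f c} < nu p m f + ε := by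
    unfold nu
    linarith
  exact exists_lt_of_csInf_lt ⟨_, rep_self hp h⟩ h1

lemma nu_nonneg (f : ℕ → 𝕜) : 0 ≤ nu p m f := Real.sInf_nonneg (fun _ h => h.nonneg)

lemma nu_add_le (hp : 0 < p) (hp1 : p ≤ 1) {f g : ℕ → 𝕜} {k l : ℕ}
    (h : Function.Periodic f (m ^ k)) (h' : Function.Periodic g (m ^ l)) :
    nu p m (f + g) ≤ nu p m f + nu p m g := by
  apply le_of_forall_pos_le_add
  intro ε hε
  obtain ⟨c, h1, h2⟩ := exists_rep hp h (half_pos hε)
  obtain ⟨c', h1', h2'⟩ := exists_rep hp h' (half_pos hε)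
  have := nu_le (h1.add hp hp1 h1')
  linarith

lemma nu_le_self (hp : 0 < p) {f : ℕ → 𝕜} {k : ℕ} (h : Function.Periodic f (m ^ k)) :
    nu p m f ≤ (3 : ℝ) ^ k * Am p m k f := nu_le (rep_self hp h)

lemma Am_le_nu (hm : 0 < m) (hp : 0 < p) (hp1 : p ≤ 1) {f : ℕ → 𝕜} {k : ℕ}
    (h : Function.Periodic f (m ^ k)) : Am p m k f ≤ nu p m f :=
  le_csInf ⟨_, rep_self hp h⟩ (fun _ hc => hc.Am_le hm hp hp1 h)

lemma nu_zero (hp : 0 < p) : nu p m (0 : ℕ → 𝕜) = 0 := by
  apply le_antisymm _ (nu_nonneg _)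
  have := nu_le_self (p := p) hp (per_zero (𝕜 := 𝕜) (m := m) 0)
  rwa [Am_zero hp, mul_zero] at this

lemma nu_smul_le (hp : 0 < p) {f : ℕ → 𝕜} {k : ℕ}
    (h : Function.Periodic f (m ^ k)) (a : 𝕜) : nu p m (a • f) ≤ ‖a‖ ^ p * nu p m f := by
  rcases eq_or_ne a 0 with rfl | ha
  · rw [zero_smul, nu_zero hp]
    have := nu_nonneg (p := p) (m := m) f
    positivity
  · have hpos : 0 < ‖a‖ ^ p := Real.rpow_pos_of_pos (norm_pos_iff.mpr ha) _
    apply le_of_forall_pos_le_add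
    intro ε hε
    obtain ⟨c, h1, h2⟩ := exists_rep hp h (div_pos hε hpos)
    refine (nu_le (h1.smul a)).trans ?_
    have := mul_le_mul_of_nonneg_left h2.le hpos.le
    rw [mul_add, mul_div_cancel₀ _ hpos.ne'] at this
    exact this

lemma nu_smul (hp : 0 < p) {f : ℕ → 𝕜} {k : ℕ}
    (h : Function.Periodic f (m ^ k)) (a : 𝕜) : nu p m (a • f) = ‖a‖ ^ p * nu p m f := by
  rcases eq_or_ne a 0 with rfl | ha
  · rw [zero_smul, nu_zero hp, norm_zero, Real.zero_rpow hp.ne', zero_mul]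
  · apply le_antisymm (nu_smul_le hp h a)
    have h1 := nu_smul_le hp (per_smul a h) a⁻¹
    rw [smul_smul, inv_mul_cancel₀ ha, one_smul, norm_inv, Real.inv_rpow (norm_nonneg _)] at h1
    have hpos : 0 < ‖a‖ ^ p := Real.rpow_pos_of_pos (norm_pos_iff.mpr ha) _
    have h2 := mul_le_mul_of_nonneg_left h1 hpos.le
    rwa [mul_inv_cancel_left₀ hpos.ne'] at h2

lemma nu_neg (hp : 0 < p) {f : ℕ → 𝕜} {k : ℕ}
    (h : Function.Periodic f (m ^ k)) : nu p m (-f) = nu p m f := by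
  have := nu_smul (p := p) hp h (-1 : 𝕜)
  rw [norm_neg, norm_one, Real.one_rpow, one_mul, neg_one_smul] at this
  exact this

lemma eq_zero_of_nu (hm : 0 < m) (hp : 0 < p) (hp1 : p ≤ 1) {f : ℕ → 𝕜} {k : ℕ}
    (h : Function.Periodic f (m ^ k)) (h0 : nu p m f = 0) : f = 0 := by
  have h1 : Am p m k f = 0 := le_antisymm (by rw [← h0]; exact Am_le_nu hm hp hp1 h) (Am_nonneg _ _)
  unfold Am at h1
  have hm' : (0 : ℝ) < m := by positivity
  rw [mul_eq_zero, or_iff_right (by positivity),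
    Finset.sum_eq_zero_iff_of_nonneg (fun i _ => by positivity)] at h1
  funext i
  have h2 := h1 (i % m ^ k) (Finset.mem_range.mpr (Nat.mod_lt _ (by positivity)))
  rw [h.map_mod_nat] at h2
  rw [Real.rpow_eq_zero (norm_nonneg _) hp.ne'] at h2
  exact norm_eq_zero.mp h2

/-- The main splitting estimate. -/
lemma lemA (hm : 0 < m) (hp : 0 < p) (hp1 : p ≤ 1) {u z : ℕ → 𝕜} {b N : ℕ}
    (hu : Function.Periodic u (m ^ b)) (hz : Function.Periodic z (m ^ N)) :
    nu p m u + nu p m z / 2 ≤ nu p m (u + z) + 3 / 2 * ((3 : ℝ) ^ b * Am p m N z) := by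
  apply le_of_forall_pos_le_add
  intro ε hε
  have hw : Function.Periodic (u + z) (m ^ (max b N)) :=
    per_add (per_mono hu (le_max_left _ _)) (per_mono hz (le_max_right _ _))
  obtain ⟨c, hc, hc2⟩ := exists_rep hp hw hε
  obtain ⟨n₀, g, hg, hgN⟩ := hc.pad hp
  set n := max n₀ (b + 1) with hn
  obtain ⟨h1, h2⟩ := hgN n (le_max_left _ _)
  have hbn : b + 1 ≤ n := le_max_right _ _
  set hd := ∑ k ∈ range (b + 1), g k with hhd
  set tl := ∑ k ∈ Ico (b + 1) n, g k with htl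
  have hsum : hd + tl = u + z := by
    rw [← h1, hhd, htl, Finset.sum_range_add_sum_Ico _ hbn]
  set cu := ∑ k ∈ range (b + 1), (3 : ℝ) ^ k * Am p m k (g k) with hcu
  set cv := ∑ k ∈ Ico (b + 1) n, (3 : ℝ) ^ k * Am p m k (g k) with hcv
  have hcsum : cu + cv ≤ c := by
    rw [hcu, hcv, Finset.sum_range_add_sum_Ico _ hbn]
    exact h2
  have hRu : Rep p m hd cu := ⟨b + 1, g, hg, rfl, le_rfl⟩
  have hRv : Rep p m tl cv := by
    refine ⟨n, fun k => if b + 1 ≤ k then g k else 0, ?_, ?_, ?_⟩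
    · intro k
      dsimp only
      split_ifs
      · exact hg k
      · exact per_zero k
    · rw [htl, ← Finset.sum_range_add_sum_Ico _ hbn]
      have e1 : ∑ k ∈ range (b + 1), (if b + 1 ≤ k then g k else 0) = 0 := by
        apply Finset.sum_eq_zero
        intro k hk
        rw [if_neg (by have := Finset.mem_range.mp hk; omega)]
      rw [e1, zero_add]
      apply Finset.sum_congr rfl
      intro k hk
      rw [if_pos (Finset.mem_Ico.mp hk).1]
    · rw [hcv, ← Finset.sum_range_add_sum_Ico _ hbn]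
      have e1 : ∑ k ∈ range (b + 1), (3 : ℝ) ^ k * Am p m k (if b + 1 ≤ k then g k else 0) = 0 := by
        apply Finset.sum_eq_zero
        intro k hk
        rw [if_neg (by have := Finset.mem_range.mp hk; omega), Am_zero hp, mul_zero]
      rw [e1, zero_add]
      apply le_of_eq
      apply Finset.sum_congr rfl
      intro k hk
      dsimp only
      rw [if_pos (Finset.mem_Ico.mp hk).1]
  have hhdper : Function.Periodic hd (m ^ b) :=
    per_sum _ _ (fun k hk => per_mono (hg k) (by have := Finset.mem_range.mp hk; omega))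
  have htlper : Function.Periodic tl (m ^ n) :=
    per_sum _ _ (fun k hk => per_mono (hg k) (Finset.mem_Ico.mp hk).2.le)
  -- the tail is small in mean
  have hAtl : (3 : ℝ) ^ (b + 1) * Am p m (max N n) tl ≤ cv := by
    have h3 : Am p m (max N n) tl ≤ ∑ k ∈ Ico (b + 1) n, Am p m k (g k) := by
      refine (Am_sum_le hp hp1 _ _ _).trans (le_of_eq ?_)
      apply Finset.sum_congr rfl
      intro k hk
      exact Am_eq hm (hg k) ((Finset.mem_Ico.mp hk).2.le.trans (le_max_right _ _))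
    refine (mul_le_mul_of_nonneg_left h3 (by positivity)).trans ?_
    rw [Finset.mul_sum, hcv]
    apply Finset.sum_le_sum
    intro k hk
    exact mul_le_mul_of_nonneg_right (pow_le_pow_right₀ (by norm_num) (Finset.mem_Ico.mp hk).1)
      (Am_nonneg _ _)
  have hdu : hd - u = z - tl := by
    have : hd = u + z - tl := by rw [← hsum]; abel
    rw [this]; abel
  have hduper : Function.Periodic (hd - u) (m ^ b) := per_sub hhdper hu
  have hnd : nu p m (hd - u) ≤ (3 : ℝ) ^ b * Am p m N z + cv / 3 := by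
    have h3 := nu_le_self (p := p) hp hduper
    have h4 : Am p m b (hd - u) ≤ Am p m N z + Am p m (max N n) tl := by
      have hbb : b ≤ max N n := (by omega : b ≤ n).trans (le_max_right _ _)
      rw [← Am_eq hm hduper hbb, hdu, sub_eq_add_neg]
      refine (Am_add_le hp hp1 _ _ _).trans ?_
      rw [Am_neg, Am_eq hm hz (le_max_left _ _)]
    have h5 : (3 : ℝ) ^ b * Am p m b (hd - u) ≤
        (3 : ℝ) ^ b * Am p m N z + (3 : ℝ) ^ b * Am p m (max N n) tl := by
      rw [← mul_add]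
      exact mul_le_mul_of_nonneg_left h4 (by positivity)
    have h6 : (3 : ℝ) ^ b * Am p m (max N n) tl ≤ cv / 3 := by
      rw [pow_succ] at hAtl
      linarith
    linarith
  have hnu : nu p m u ≤ cu + ((3 : ℝ) ^ b * Am p m N z + cv / 3) := by
    have e : u = hd + -(hd - u) := by abel
    rw [e]
    refine (nu_add_le hp hp1 hhdper (k := b) (l := b) ?_).trans ?_
    · intro x
      simp only [Pi.neg_apply, hduper x]
    · rw [nu_neg hp hduper]
      exact add_le_add (nu_le hRu) hnd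
  have hnz : nu p m z ≤ ((3 : ℝ) ^ b * Am p m N z + cv / 3) + cv := by
    have e : z = (hd - u) + tl := by rw [hdu]; abel
    nth_rewrite 1 [e]
    refine (nu_add_le hp hp1 hduper htlper).trans ?_
    exact add_le_add hnd (nu_le hRv)
  linarith

end Pool.Agent.X171.SC
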