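import Pool.Agent.X171.SC.Space

open Finset Filter Topology

namespace Pool.Agent.X171.SC

variable {𝕜 : Type} [RCLike 𝕜] {p : ℝ} {m : ℕ} [hP : Par p m]

omit hP in
lemma Am_tendsto (hp : 0 < p) (k : ℕ) (h : ℕ → ℕ → 𝕜) (H : ℕ → 𝕜)
    (hh : ∀ i, Tendsto (fun j => h j i) atTop (𝓝 (H i))) :
    Tendsto (fun j => Am p m k (h j)) atTop (𝓝 (Am p m k H)) := by
  unfold Am
  apply Tendsto.const_mul
  apply tendsto_finsetSum
  intro i _
  exact ((hh i).norm).rpow_const (Or.inr hp.le)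

/-- The compactness lemma. -/
theorem lemC (x : ℕ → X 𝕜 p m) (M : ℝ) (hM : ∀ j, ‖x j‖ ≤ M) :
    ∃ (φ : ℕ → ℕ) (f : X 𝕜 p m), StrictMono φ ∧ ∀ δ : ℝ, 0 < δ → ∃ J, ∀ j, J ≤ j →
      ∃ (v : W 𝕜 m p) (N : ℕ), Function.Periodic v.f (m ^ N) ∧
        ‖x (φ j) - f - (v : X 𝕜 p m)‖ ≤ δ ∧ Am p m N v.f ≤ δ := by
  have hp := hP.hp
  have hm := hP.hm
  have hmR : (0 : ℝ) < m := by exact_mod_cast hm
  have hM0 : 0 ≤ M := (norm_nonneg _).trans (hM 0)
  -- approximations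
  have h1 : ∀ j, ∃ v : W 𝕜 m p, ‖x j - (v : X 𝕜 p m)‖ < 1 / ((j : ℝ) + 1) :=
    fun j => dense (x j) (by positivity)
  choose v hv using h1
  have hvn : ∀ j, ‖v j‖ ≤ M + 1 := by
    intro j
    have h2 : (1 : ℝ) / ((j : ℝ) + 1) ≤ 1 := by
      rw [div_le_one (by positivity)]
      linarith [(Nat.cast_nonneg j : (0 : ℝ) ≤ j)]
    have h3 : ‖(v j : X 𝕜 p m)‖ ≤ ‖x j‖ + ‖x j - (v j : X 𝕜 p m)‖ := by
      have : (v j : X 𝕜 p m) = x j - (x j - (v j : X 𝕜 p m)) := by abel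
      nth_rewrite 1 [this]
      exact norm_sub_le _ _
    rw [UniformSpace.Completion.norm_coe] at h3
    linarith [hM j, hv j]
  have h2 : ∀ j, ∃ n₀ : ℕ, ∃ g : ℕ → ℕ → 𝕜, (∀ k, Function.Periodic (g k) (m ^ k)) ∧
      ∀ N, n₀ ≤ N → (∑ k ∈ range N, g k = (v j).f) ∧
        ∑ k ∈ range N, (3 : ℝ) ^ k * Am p m k (g k) ≤ M + 2 := by
    intro j
    obtain ⟨k, hk⟩ := (v j).per
    obtain ⟨c, hc, hc2⟩ := exists_rep (p := p) hp hk one_pos
    obtain ⟨n₀, g, hg1, hg2⟩ := hc.pad hp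
    refine ⟨n₀, g, hg1, fun N hN => ⟨(hg2 N hN).1, (hg2 N hN).2.trans ?_⟩⟩
    have := hvn j
    rw [W.norm_def] at this
    linarith
  choose n₀ g hg hgN using h2
  have hcost : ∀ j N, ∑ k ∈ range N, (3 : ℝ) ^ k * Am p m k (g j k) ≤ M + 2 := by
    intro j N
    refine le_trans ?_ (hgN j (max N (n₀ j)) (le_max_right _ _)).2
    apply Finset.sum_le_sum_of_subset_of_nonneg
    · exact Finset.range_subset_range.mpr (le_max_left _ _)
    · intro k _ _
      exact mul_nonneg (by positivity) (Am_nonneg _ _)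
  have hcost1 : ∀ j k, Am p m k (g j k) ≤ M + 2 := by
    intro j k
    refine le_trans ?_ (hcost j (k + 1))
    have h3 : (3 : ℝ) ^ k * Am p m k (g j k) ≤
        ∑ k ∈ range (k + 1), (3 : ℝ) ^ k * Am p m k (g j k) :=
      Finset.single_le_sum (f := fun k => (3 : ℝ) ^ k * Am p m k (g j k))
        (fun k _ => mul_nonneg (by positivity) (Am_nonneg _ _)) (by simp)
    refine le_trans ?_ h3
    nth_rewrite 1 [← one_mul (Am p m k (g j k))]
    exact mul_le_mul_of_nonneg_right (one_le_pow₀ (by norm_num)) (Am_nonneg _ _)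
  set R : ℕ → ℝ := fun k => ((m : ℝ) ^ k * (M + 2)) ^ (1 / p) with hR
  have hgR : ∀ j k i, ‖g j k i‖ ≤ R k := by
    intro j k i
    have h3 : ‖g j k i‖ ^ p ≤ (m : ℝ) ^ k * (M + 2) := by
      rw [← (hg j k).map_mod_nat i]
      have h4 : ‖g j k (i % m ^ k)‖ ^ p ≤ ∑ i ∈ range (m ^ k), ‖g j k i‖ ^ p :=
        Finset.single_le_sum (f := fun i => ‖g j k i‖ ^ p) (fun _ _ => by positivity)
          (Finset.mem_range.mpr (Nat.mod_lt _ (pow_pos hm k)))
      refine h4.trans ?_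
      have h5 := mul_le_mul_of_nonneg_left (hcost1 j k) (pow_pos hmR k).le
      unfold Am at h5
      rwa [mul_inv_cancel_left₀ (pow_pos hmR k).ne'] at h5
    have h6 := Real.rpow_le_rpow (by positivity) h3 (by positivity : (0 : ℝ) ≤ 1 / p)
    rwa [← Real.rpow_mul (norm_nonneg _), mul_one_div_cancel hp.ne', Real.rpow_one] at h6
  have hK : IsCompact (Set.pi Set.univ (fun k : ℕ => Set.pi Set.univ
      (fun _ : ℕ => Metric.closedBall (0 : 𝕜) (R k)))) := by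
    apply isCompact_univ_pi
    intro k
    apply isCompact_univ_pi
    intro i
    exact isCompact_closedBall _ _
  obtain ⟨G, -, φ, hφ, hG⟩ := hK.tendsto_subseq (x := g) (by
    intro j
    rw [Set.mem_univ_pi]
    intro k
    rw [Set.mem_univ_pi]
    intro i
    rw [mem_closedBall_zero_iff]
    exact hgR j k i)
  have hGp : ∀ k i, Tendsto (fun j => g (φ j) k i) atTop (𝓝 (G k i)) := by
    intro k i
    exact tendsto_pi_nhds.mp (tendsto_pi_nhds.mp hG k) i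
  have hGper : ∀ k, Function.Periodic (G k) (m ^ k) := by
    intro k i
    refine tendsto_nhds_unique (hGp k (i + m ^ k)) ?_
    refine (hGp k i).congr (fun j => ?_)
    exact (hg (φ j) k i).symm
  have hGcost : ∀ N, ∑ k ∈ range N, (3 : ℝ) ^ k * Am p m k (G k) ≤ M + 2 := by
    intro N
    have h3 : Tendsto (fun j => ∑ k ∈ range N, (3 : ℝ) ^ k * Am p m k (g (φ j) k)) atTop
        (𝓝 (∑ k ∈ range N, (3 : ℝ) ^ k * Am p m k (G k))) := by
      apply tendsto_finsetSum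
      intro k _
      exact (Am_tendsto hp k _ _ (hGp k)).const_mul _
    exact le_of_tendsto' h3 (fun j => hcost (φ j) N)
  set GW : ℕ → W 𝕜 m p := fun k => W.mk (G k) ⟨k, hGper k⟩ with hGW
  have hGWn : ∀ k, ‖(GW k : X 𝕜 p m)‖ ≤ (3 : ℝ) ^ k * Am p m k (G k) := by
    intro k
    rw [UniformSpace.Completion.norm_coe, W.norm_def]
    exact nu_le_self hp (hGper k)
  have hsm : Summable (fun k => (3 : ℝ) ^ k * Am p m k (G k)) :=
    summable_of_sum_range_le (fun k => mul_nonneg (by positivity) (Am_nonneg _ _)) hGcost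
  have hsm2 : Summable (fun k => (GW k : X 𝕜 p m)) := Summable.of_norm_bounded hsm hGWn
  obtain ⟨f, hf⟩ := hsm2
  have hft := hf.tendsto_sum_nat
  refine ⟨φ, f, hφ, ?_⟩
  intro δ hδ
  -- choice of K
  obtain ⟨K, hK1, hK2⟩ : ∃ K : ℕ, ‖∑ k ∈ range K, (GW k : X 𝕜 p m) - f‖ ≤ δ / 2 ∧
      (M + 2) / (3 : ℝ) ^ K ≤ δ / 2 := by
    have e1 : ∀ᶠ K : ℕ in atTop, ‖∑ k ∈ range K, (GW k : X 𝕜 p m) - f‖ ≤ δ / 2 := by
      have := Metric.tendsto_atTop.mp hft (δ / 2) (half_pos hδ)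
      obtain ⟨N, hN⟩ := this
      filter_upwards [eventually_ge_atTop N] with K hKN
      rw [← dist_eq_norm]
      exact (hN K hKN).le
    have e2 : ∀ᶠ K : ℕ in atTop, (M + 2) / (3 : ℝ) ^ K ≤ δ / 2 := by
      have h3 : Tendsto (fun K : ℕ => (M + 2) * ((1 / 3 : ℝ)) ^ K) atTop (𝓝 ((M + 2) * 0)) :=
        (tendsto_pow_atTop_nhds_zero_of_lt_one (by norm_num) (by norm_num)).const_mul _
      rw [mul_zero] at h3
      filter_upwards [h3.eventually_le_const (half_pos hδ)] with K hKK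
      refine le_trans (le_of_eq ?_) hKK
      rw [one_div, inv_pow]
      rfl
    exact (e1.and e2).exists
  -- choice of J
  have e3 : ∀ᶠ j in atTop, ∑ k ∈ range K, Am p m k (g (φ j) k - G k) ≤ δ / 2 := by
    have h3 : Tendsto (fun j => ∑ k ∈ range K, Am p m k (g (φ j) k - G k)) atTop
        (𝓝 (∑ k ∈ range K, Am p m k (0 : ℕ → 𝕜))) := by
      apply tendsto_finsetSum
      intro k _
      apply Am_tendsto hp
      intro i
      have := (hGp k i).sub_const (G k i)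
      rw [sub_self] at this
      exact this
    simp only [Am_zero hp, Finset.sum_const_zero] at h3
    exact h3.eventually_le_const (half_pos hδ)
  have e4 : ∀ᶠ j : ℕ in atTop, 1 / ((j : ℝ) + 1) ≤ δ / 2 :=
    tendsto_one_div_add_atTop_nhds_zero_nat.eventually_le_const (half_pos hδ)
  obtain ⟨J, hJ⟩ := eventually_atTop.mp (e3.and e4)
  refine ⟨J, fun j hj => ?_⟩
  obtain ⟨h3, h4⟩ := hJ j hj
  set w : W 𝕜 m p := v (φ j) - ∑ k ∈ range K, GW k with hw
  set N := max K (n₀ (φ j)) with hN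
  have hKN : K ≤ N := le_max_left _ _
  have hwf : w.f = ∑ k ∈ range K, (g (φ j) k - G k) + ∑ k ∈ Ico K N, g (φ j) k := by
    rw [hw, W.sub_f, W.sum_f, ← (hgN (φ j) N (le_max_right _ _)).1,
      ← Finset.sum_range_add_sum_Ico _ hKN, Finset.sum_sub_distrib]
    simp only [hGW, W.mk_f]
    abel
  have hper1 : ∀ k ∈ range K, Function.Periodic (g (φ j) k - G k) (m ^ N) := fun k hk =>
    per_mono (per_sub (hg (φ j) k) (hGper k)) ((Finset.mem_range.mp hk).le.trans hKN)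
  have hper2 : ∀ k ∈ Ico K N, Function.Periodic (g (φ j) k) (m ^ N) := fun k hk =>
    per_mono (hg (φ j) k) (Finset.mem_Ico.mp hk).2.le
  refine ⟨w, N, ?_, ?_, ?_⟩
  · rw [hwf]
    exact per_add (per_sum _ _ hper1) (per_sum _ _ hper2)
  · have h5 : x (φ j) - f - (w : X 𝕜 p m) = (x (φ j) - (v (φ j) : X 𝕜 p m)) +
        (∑ k ∈ range K, (GW k : X 𝕜 p m) - f) := by
      rw [hw, UniformSpace.Completion.coe_sub, coe_sum]
      abel
    rw [h5]
    refine (norm_add_le _ _).trans ?_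
    have h6 : ‖x (φ j) - (v (φ j) : X 𝕜 p m)‖ ≤ δ / 2 := by
      refine (hv (φ j)).le.trans (le_trans ?_ h4)
      apply one_div_le_one_div_of_le (by positivity)
      have : (j : ℝ) ≤ (φ j : ℝ) := by exact_mod_cast hφ.id_le j
      linarith
    linarith
  · rw [hwf]
    refine (Am_add_le hp hP.hp1.le _ _ _).trans ?_
    have h5 : Am p m N (∑ k ∈ range K, (g (φ j) k - G k)) ≤ δ / 2 := by
      refine (Am_sum_le hp hP.hp1.le _ _ _).trans (le_trans (le_of_eq ?_) h3)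
      apply Finset.sum_congr rfl
      intro k hk
      exact Am_eq hm (per_sub (hg (φ j) k) (hGper k)) ((Finset.mem_range.mp hk).le.trans hKN)
    have h6 : Am p m N (∑ k ∈ Ico K N, g (φ j) k) ≤ (M + 2) / (3 : ℝ) ^ K := by
      rw [le_div_iff₀ (by positivity)]
      have h7 : Am p m N (∑ k ∈ Ico K N, g (φ j) k) ≤ ∑ k ∈ Ico K N, Am p m k (g (φ j) k) := by
        refine (Am_sum_le hp hP.hp1.le _ _ _).trans (le_of_eq ?_)
        apply Finset.sum_congr rfl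
        intro k hk
        exact Am_eq hm (hg (φ j) k) (Finset.mem_Ico.mp hk).2.le
      refine (mul_le_mul_of_nonneg_right h7 (by positivity)).trans ?_
      refine le_trans ?_ (hcost (φ j) N)
      rw [← Finset.sum_range_add_sum_Ico _ hKN, Finset.sum_mul]
      have h8 : 0 ≤ ∑ k ∈ range K, (3 : ℝ) ^ k * Am p m k (g (φ j) k) :=
        Finset.sum_nonneg (fun k _ => mul_nonneg (by positivity) (Am_nonneg _ _))
      have h9 : ∑ i ∈ Ico K N, Am p m i (g (φ j) i) * (3 : ℝ) ^ K ≤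
          ∑ k ∈ Ico K N, (3 : ℝ) ^ k * Am p m k (g (φ j) k) := by
        apply Finset.sum_le_sum
        intro k hk
        rw [mul_comm]
        exact mul_le_mul_of_nonneg_right
          (pow_le_pow_right₀ (by norm_num) (Finset.mem_Ico.mp hk).1) (Am_nonneg _ _)
      linarith
    linarith

/-- The lower `ℓ_p` estimate. -/
lemma lower (w₀ : W 𝕜 m p) (bb : ℕ → ℕ) (hbb : Monotone bb)
    (h0 : Function.Periodic w₀.f (m ^ bb 0)) (FF : ℕ → W 𝕜 m p)
    (hFF : ∀ i, Function.Periodic (FF i).f (m ^ bb (i + 1))) (η κ : ℝ)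
    (hA : ∀ i, (3 : ℝ) ^ bb i * Am p m (bb (i + 1)) (FF i).f ≤ η)
    (hn : ∀ i, κ ≤ ‖FF i‖) (c₀ : 𝕜) (a : ℕ → 𝕜) (I : Finset ℕ) :
    (κ / 2 - 3 / 2 * η) * ∑ i ∈ I, ‖a i‖ ^ p ≤ ‖c₀ • w₀ + ∑ i ∈ I, a i • FF i‖ := by
  induction I using Finset.induction_on_max with
  | empty => simp
  | insert l I hl ih =>
    have hlI : l ∉ I := fun h => lt_irrefl _ (hl l h)
    rw [Finset.sum_insert hlI, Finset.sum_insert hlI]
    set u : W 𝕜 m p := c₀ • w₀ + ∑ i ∈ I, a i • FF i with hu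
    set z : W 𝕜 m p := a l • FF l with hz
    have e : c₀ • w₀ + (z + ∑ i ∈ I, a i • FF i) = u + z := by
      rw [hu]; abel
    rw [e]
    have hup : Function.Periodic u.f (m ^ bb l) := by
      rw [hu, W.add_f, W.sum_f]
      refine per_add (per_mono (per_smul c₀ h0) (hbb (Nat.zero_le l))) (per_sum _ _ ?_)
      intro i hi
      rw [W.smul_f]
      exact per_mono (per_smul _ (hFF i)) (hbb (hl i hi))
    have hzp : Function.Periodic z.f (m ^ bb (l + 1)) := by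
      rw [hz, W.smul_f]
      exact per_smul _ (hFF l)
    have h1 := lemA hP.hm hP.hp hP.hp1.le hup hzp
    have h2 : ‖z‖ = ‖a l‖ ^ p * ‖FF l‖ := W.norm_smul _ _
    have h3 : Am p m (bb (l + 1)) z.f = ‖a l‖ ^ p * Am p m (bb (l + 1)) (FF l).f := by
      rw [hz, W.smul_f, Am_smul]
    rw [h3] at h1
    change ‖u‖ + ‖z‖ / 2 ≤ ‖u + z‖ + _ at h1
    rw [h2] at h1
    have h4 : 0 ≤ ‖a l‖ ^ p := by positivity
    have h5 := mul_le_mul_of_nonneg_left (hA l) h4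
    have h6 := mul_le_mul_of_nonneg_left (hn l) h4
    nlinarith [h1, h5, h6, ih]

/-- The Schur `p`-property in terms of the `p`-norm. -/
theorem schur (A : Set (X 𝕜 p m)) (hinf : A.Infinite) (M : ℝ) (hM : ∀ x ∈ A, ‖x‖ ≤ M)
    (s : ℝ) (hs : 0 < s) (hsep : ∀ x ∈ A, ∀ y ∈ A, x ≠ y → s ≤ ‖x - y‖) :
    ∃ B : Set (X 𝕜 p m), B ⊆ A ∧ B.Infinite ∧ ∃ c > 0, ∃ C > 0, ∀ F : Finset (X 𝕜 p m),
      (F : Set (X 𝕜 p m)) ⊆ B → ∀ a : X 𝕜 p m → 𝕜,
        c * ∑ x ∈ F, ‖a x‖ ^ p ≤ ‖∑ x ∈ F, a x • x‖ ∧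
          ‖∑ x ∈ F, a x • x‖ ≤ C * ∑ x ∈ F, ‖a x‖ ^ p := by
  classical
  have hp := hP.hp
  set em := hinf.natEmbedding with hem
  set u : ℕ → X 𝕜 p m := fun j => (em j : X 𝕜 p m) with hu
  have huA : ∀ j, u j ∈ A := fun j => (em j).2
  have huinj : Function.Injective u := fun i j h => em.injective (Subtype.ext h)
  obtain ⟨φ, f, hφ, hC⟩ := lemC u M (fun j => hM _ (huA j))
  set y : ℕ → X 𝕜 p m := fun j => u (φ j) - f with hy
  have hJ1 : ∃ J₁, ∀ j, J₁ ≤ j → s / 2 ≤ ‖y j‖ := by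
    by_cases hex : ∃ j₀, ‖y j₀‖ < s / 2
    · obtain ⟨j₀, hj₀⟩ := hex
      refine ⟨j₀ + 1, fun j hj => ?_⟩
      by_contra hlt
      push Not at hlt
      have hne : u (φ j) ≠ u (φ j₀) := fun h => by
        have := hφ.injective (huinj h)
        omega
      have h1 := hsep _ (huA (φ j)) _ (huA (φ j₀)) hne
      have h2 : u (φ j) - u (φ j₀) = y j - y j₀ := by rw [hy]; simp
      rw [h2] at h1
      have h3 := norm_sub_le (y j) (y j₀)
      linarith
    · push Not at hex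
      exact ⟨0, fun j _ => hex j⟩
  obtain ⟨J₁, hJ₁⟩ := hJ1
  set η := s / 40 with hη
  have hηpos : 0 < η := by positivity
  obtain ⟨w₀, hw₀⟩ := dense f hηpos
  obtain ⟨b₀, hb₀⟩ := w₀.per
  have step : ∀ st : ℕ × ℕ × W 𝕜 m p, ∃ st' : ℕ × ℕ × W 𝕜 m p, st.1 < st'.1 ∧
      st.2.1 ≤ st'.2.1 ∧ Function.Periodic st'.2.2.f (m ^ st'.2.1) ∧
      ‖y st'.1 - (st'.2.2 : X 𝕜 p m)‖ ≤ η ∧
      (3 : ℝ) ^ st.2.1 * Am p m st'.2.1 st'.2.2.f ≤ η ∧ s / 2 ≤ ‖y st'.1‖ := by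
    intro st
    have hδ : 0 < η / (3 : ℝ) ^ st.2.1 := by positivity
    obtain ⟨J, hJ⟩ := hC _ hδ
    obtain ⟨v, N, hv1, hv2, hv3⟩ := hJ (max (max J J₁) (st.1 + 1))
      ((le_max_left _ _).trans (le_max_left _ _))
    refine ⟨(max (max J J₁) (st.1 + 1), max st.2.1 N, v), ?_, le_max_left _ _,
      per_mono hv1 (le_max_right _ _), ?_, ?_, ?_⟩
    · exact lt_of_lt_of_le (Nat.lt_succ_self _) (le_max_right _ _)
    · refine hv2.trans ?_
      rw [div_le_iff₀ (by positivity)]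
      have : (1 : ℝ) ≤ (3 : ℝ) ^ st.2.1 := one_le_pow₀ (by norm_num)
      nlinarith
    · dsimp only
      rw [Am_eq hP.hm hv1 (le_max_right _ _)]
      have := mul_le_mul_of_nonneg_left hv3 (by positivity : (0 : ℝ) ≤ (3 : ℝ) ^ st.2.1)
      rwa [mul_div_cancel₀ _ (by positivity)] at this
    · exact hJ₁ _ ((le_max_right _ _).trans (le_max_left _ _))
  choose nx hnx using step
  set sq : ℕ → ℕ × ℕ × W 𝕜 m p := fun n => Nat.rec (0, b₀, w₀) (fun _ st => nx st) n with hsq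
  have hsq0 : sq 0 = (0, b₀, w₀) := rfl
  have hsqs : ∀ n, sq (n + 1) = nx (sq n) := fun _ => rfl
  have hR : ∀ n, (sq n).1 < (sq (n + 1)).1 ∧
      (sq n).2.1 ≤ (sq (n + 1)).2.1 ∧
      Function.Periodic (sq (n + 1)).2.2.f (m ^ (sq (n + 1)).2.1) ∧
      ‖y (sq (n + 1)).1 - ((sq (n + 1)).2.2 : X 𝕜 p m)‖ ≤ η ∧
      (3 : ℝ) ^ (sq n).2.1 * Am p m (sq (n + 1)).2.1 (sq (n + 1)).2.2.f ≤ η ∧
      s / 2 ≤ ‖y (sq (n + 1)).1‖ := by
    intro n
    rw [hsqs]
    exact hnx (sq n)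
  set jj : ℕ → ℕ := fun i => (sq (i + 1)).1 with hjj
  have hjjm : StrictMono jj := strictMono_nat_of_lt_succ (fun n => (hR (n + 1)).1)
  set bb : ℕ → ℕ := fun i => (sq i).2.1 with hbb
  have hbbm : Monotone bb := monotone_nat_of_le_succ (fun n => (hR n).2.1)
  set FF : ℕ → W 𝕜 m p := fun i => (sq (i + 1)).2.2 with hFF
  have hFn : ∀ i, s / 2 - η ≤ ‖FF i‖ := by
    intro i
    have h1 := (hR i).2.2.2.1
    have h2 := (hR i).2.2.2.2.2
    have h3 : ‖y (sq (i + 1)).1‖ ≤ ‖y (sq (i + 1)).1 - ((sq (i + 1)).2.2 : X 𝕜 p m)‖ +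
        ‖((sq (i + 1)).2.2 : X 𝕜 p m)‖ := by
      have : y (sq (i + 1)).1 = (y (sq (i + 1)).1 - ((sq (i + 1)).2.2 : X 𝕜 p m)) +
        ((sq (i + 1)).2.2 : X 𝕜 p m) := by abel
      nth_rewrite 1 [this]
      exact norm_add_le _ _
    rw [UniformSpace.Completion.norm_coe] at h3
    change s / 2 - η ≤ ‖(sq (i + 1)).2.2‖
    linarith
  have hlow := lower w₀ bb hbbm hb₀ FF (fun i => (hR i).2.2.1) η (s / 2 - η)
    (fun i => (hR i).2.2.2.2.1) hFn
  -- the sequence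
  set xs : ℕ → X 𝕜 p m := fun i => u (φ (jj i)) with hxs
  have hxsinj : Function.Injective xs := fun i j h => hjjm.injective (hφ.injective (huinj h))
  have hsub : ∀ (I : Finset ℕ) (a : ℕ → 𝕜), ‖∑ i ∈ I, a i‖ ^ p ≤ ∑ i ∈ I, ‖a i‖ ^ p := by
    intro I a
    induction I using Finset.induction_on with
    | empty => simp [Real.zero_rpow hp.ne']
    | insert l I hl ih =>
      rw [Finset.sum_insert hl, Finset.sum_insert hl]
      calc ‖a l + ∑ i ∈ I, a i‖ ^ p ≤ (‖a l‖ + ‖∑ i ∈ I, a i‖) ^ p :=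
            Real.rpow_le_rpow (norm_nonneg _) (norm_add_le _ _) hp.le
        _ ≤ ‖a l‖ ^ p + ‖∑ i ∈ I, a i‖ ^ p :=
            Real.rpow_add_le_add_rpow (norm_nonneg _) (norm_nonneg _) hp.le hP.hp1.le
        _ ≤ _ := by linarith
  have hfin : ∀ (I : Finset ℕ) (a : ℕ → 𝕜),
      (3 * s / 20) * ∑ i ∈ I, ‖a i‖ ^ p ≤ ‖∑ i ∈ I, a i • xs i‖ := by
    intro I a
    set c₀ : 𝕜 := ∑ i ∈ I, a i with hc₀
    set S := ∑ i ∈ I, ‖a i‖ ^ p with hS
    have hS0 : 0 ≤ S := Finset.sum_nonneg (fun _ _ => by positivity)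
    have e : ((c₀ • w₀ + ∑ i ∈ I, a i • FF i : W 𝕜 m p) : X 𝕜 p m) =
        ∑ i ∈ I, a i • xs i - (c₀ • (f - (w₀ : X 𝕜 p m)) +
          ∑ i ∈ I, a i • (y (jj i) - (FF i : X 𝕜 p m))) := by
      rw [UniformSpace.Completion.coe_add, coe_sum, UniformSpace.Completion.coe_smul]
      have e1 : ∀ i, a i • (y (jj i) - (FF i : X 𝕜 p m)) = a i • xs i - a i • f -
          a i • (FF i : X 𝕜 p m) := by
        intro i
        rw [smul_sub, hy, smul_sub]
      simp only [e1, Finset.sum_sub_distrib, ← Finset.sum_smul, UniformSpace.Completion.coe_smul,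
        smul_sub]
      rw [← hc₀]
      abel
    have h1 := hlow c₀ a I
    rw [← UniformSpace.Completion.norm_coe, e] at h1
    have h2 : ‖c₀ • (f - (w₀ : X 𝕜 p m))‖ ≤ S * η := by
      rw [norm_smulX]
      exact mul_le_mul (hsub I a) hw₀.le (norm_nonneg _) hS0
    have h3 : ‖∑ i ∈ I, a i • (y (jj i) - (FF i : X 𝕜 p m))‖ ≤ S * η := by
      refine (norm_sum_le _ _).trans ?_
      rw [hS, Finset.sum_mul]
      apply Finset.sum_le_sum
      intro i _
      rw [norm_smulX]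
      exact mul_le_mul_of_nonneg_left (hR i).2.2.2.1 (by positivity)
    have h4 := norm_sub_le (∑ i ∈ I, a i • xs i) (c₀ • (f - (w₀ : X 𝕜 p m)) +
          ∑ i ∈ I, a i • (y (jj i) - (FF i : X 𝕜 p m)))
    have h5 := norm_add_le (c₀ • (f - (w₀ : X 𝕜 p m)))
      (∑ i ∈ I, a i • (y (jj i) - (FF i : X 𝕜 p m)))
    have h6 : ((s / 2 - η) / 2 - 3 / 2 * η) * S = (3 * s / 20) * S + 2 * (S * η) := by
      rw [hη]; ring
    rw [h6] at h1
    linarith
  refine ⟨Set.range xs, ?_, Set.infinite_range_of_injective hxsinj, 3 * s / 20, by positivity,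
    max M 1, by positivity, ?_⟩
  · rintro _ ⟨i, rfl⟩
    exact huA _
  · intro F hF a
    constructor
    · obtain ⟨I, hI⟩ : ∃ I : Finset ℕ, F = I.image xs := by
        refine ⟨F.preimage xs hxsinj.injOn, ?_⟩
        rw [Finset.image_preimage, Finset.filter_true_of_mem]
        intro x hx
        exact hF hx
      rw [hI, Finset.sum_image hxsinj.injOn, Finset.sum_image hxsinj.injOn]
      exact hfin I (fun i => a (xs i))
    · refine (norm_sum_le _ _).trans ?_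
      rw [Finset.mul_sum]
      apply Finset.sum_le_sum
      intro x hx
      rw [norm_smulX, mul_comm]
      refine mul_le_mul_of_nonneg_right ?_ (by positivity)
      obtain ⟨i, rfl⟩ := hF hx
      exact (hM _ (huA _)).trans (le_max_left _ _)

end Pool.Agent.X171.SC
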