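import Pool.Agent.X171.SC.Core

open Finset Filter Topology

namespace Pool.Agent.X171.SC

/-- The conditions on the parameters. -/
class Par (p : ℝ) (m : ℕ) : Prop where
  hm : 0 < m
  hp : 0 < p
  hp1 : p < 1
  h3 : (3 : ℝ) < (m : ℝ) ^ (1 - p)

section Defs

variable (𝕜 : Type) [RCLike 𝕜] (p : ℝ) (m : ℕ)

/-- Scalar functions on `ℕ` which are periodic with period `m ^ k` for some `k`. -/
def V : Submodule 𝕜 (ℕ → 𝕜) where
  carrier := {f | ∃ k, Function.Periodic f (m ^ k)}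
  add_mem' := by
    rintro f g ⟨k, hk⟩ ⟨l, hl⟩
    exact ⟨max k l, per_add (per_mono hk (le_max_left _ _)) (per_mono hl (le_max_right _ _))⟩
  zero_mem' := ⟨0, per_zero 0⟩
  smul_mem' := by
    rintro c f ⟨k, hk⟩
    exact ⟨k, per_smul c hk⟩

/-- A type synonym of `V`, which carries the norm `nu`. -/
@[nolint unusedArguments]
def W (_p : ℝ) : Type := V 𝕜 m

instance : AddCommGroup (W 𝕜 m p) := inferInstanceAs (AddCommGroup (V 𝕜 m))

instance : Module 𝕜 (W 𝕜 m p) := inferInstanceAs (Module 𝕜 (V 𝕜 m))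

variable {𝕜 p m}

/-- The underlying function. -/
def W.f (x : W 𝕜 m p) : ℕ → 𝕜 := Subtype.val (show V 𝕜 m from x)

lemma W.per (x : W 𝕜 m p) : ∃ k, Function.Periodic x.f (m ^ k) := Subtype.property (show V 𝕜 m from x)

/-- Construct an element. -/
def W.mk (f : ℕ → 𝕜) (h : ∃ k, Function.Periodic f (m ^ k)) : W 𝕜 m p := (⟨f, h⟩ : V 𝕜 m)

@[simp] lemma W.mk_f (f : ℕ → 𝕜) (h : ∃ k, Function.Periodic f (m ^ k)) :
    (W.mk (p := p) f h).f = f := rfl

@[simp] lemma W.add_f (x y : W 𝕜 m p) : (x + y).f = x.f + y.f := rfl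

@[simp] lemma W.zero_f : (0 : W 𝕜 m p).f = 0 := rfl

@[simp] lemma W.neg_f (x : W 𝕜 m p) : (-x).f = -x.f := rfl

@[simp] lemma W.sub_f (x y : W 𝕜 m p) : (x - y).f = x.f - y.f := rfl

@[simp] lemma W.smul_f (c : 𝕜) (x : W 𝕜 m p) : (c • x).f = c • x.f := rfl

lemma W.ext {x y : W 𝕜 m p} (h : x.f = y.f) : x = y := Subtype.ext h

variable (𝕜 p m)

/-- The linear map `x ↦ x.f`. -/
def W.fl : W 𝕜 m p →ₗ[𝕜] (ℕ → 𝕜) where
  toFun := W.f
  map_add' := fun _ _ => rfl
  map_smul' := fun _ _ => rfl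

variable {𝕜 p m}

lemma W.sum_f {ι : Type} (s : Finset ι) (x : ι → W 𝕜 m p) :
    (∑ i ∈ s, x i).f = ∑ i ∈ s, (x i).f := map_sum (W.fl 𝕜 p m) x s

variable (𝕜 p m)

/-- The group norm. -/
noncomputable def gn [h : Par p m] : AddGroupNorm (W 𝕜 m p) where
  toFun := fun x => nu p m x.f
  map_zero' := by rw [W.zero_f]; exact nu_zero h.hp
  add_le' := by
    intro x y
    obtain ⟨k, hk⟩ := x.per
    obtain ⟨l, hl⟩ := y.per
    rw [W.add_f]
    exact nu_add_le h.hp h.hp1.le hk hl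
  neg' := by
    intro x
    obtain ⟨k, hk⟩ := x.per
    rw [W.neg_f]
    exact nu_neg h.hp hk
  eq_zero_of_map_eq_zero' := by
    intro x hx
    obtain ⟨k, hk⟩ := x.per
    exact W.ext (eq_zero_of_nu h.hm h.hp h.hp1.le hk hx)

noncomputable instance [Par p m] : NormedAddCommGroup (W 𝕜 m p) :=
  AddGroupNorm.toNormedAddCommGroup (gn 𝕜 p m)

end Defs

variable {𝕜 : Type} [RCLike 𝕜] {p : ℝ} {m : ℕ} [hP : Par p m]

lemma W.norm_def (x : W 𝕜 m p) : ‖x‖ = nu p m x.f := rfl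

lemma W.norm_smul (c : 𝕜) (x : W 𝕜 m p) : ‖c • x‖ = ‖c‖ ^ p * ‖x‖ := by
  obtain ⟨k, hk⟩ := x.per
  rw [W.norm_def, W.norm_def, W.smul_f]
  exact nu_smul hP.hp hk c

instance : UniformContinuousConstSMul 𝕜 (W 𝕜 m p) where
  uniformContinuous_const_smul := by
    intro c
    have : LipschitzWith (Real.toNNReal (‖c‖ ^ p)) (fun x : W 𝕜 m p => c • x) := by
      apply LipschitzWith.of_dist_le_mul
      intro x y
      rw [dist_eq_norm, dist_eq_norm, ← smul_sub, W.norm_smul,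
        Real.coe_toNNReal _ (by positivity)]
    exact this.uniformContinuous

/-- The space. -/
abbrev X (𝕜 : Type) [RCLike 𝕜] (p : ℝ) (m : ℕ) [Par p m] : Type :=
  UniformSpace.Completion (W 𝕜 m p)

noncomputable instance : NormedAddCommGroup (X 𝕜 p m) := inferInstance
noncomputable instance : Module 𝕜 (X 𝕜 p m) := inferInstance

lemma norm_smulX (c : 𝕜) (x : X 𝕜 p m) : ‖c • x‖ = ‖c‖ ^ p * ‖x‖ := by
  refine UniformSpace.Completion.induction_on x ?_ ?_
  · exact isClosed_eq (continuous_norm.comp (continuous_const_smul c))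
      (continuous_const.mul continuous_norm)
  · intro a
    rw [← UniformSpace.Completion.coe_smul, UniformSpace.Completion.norm_coe,
      UniformSpace.Completion.norm_coe, W.norm_smul]

lemma dense (x : X 𝕜 p m) {ε : ℝ} (hε : 0 < ε) : ∃ v : W 𝕜 m p, ‖x - (v : X 𝕜 p m)‖ < ε := by
  obtain ⟨v, hv⟩ := (UniformSpace.Completion.denseRange_coe (α := W 𝕜 m p)).exists_dist_lt x hε
  exact ⟨v, by rwa [← dist_eq_norm]⟩

lemma coe_sum {ι : Type} (s : Finset ι) (x : ι → W 𝕜 m p) :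
    ((∑ i ∈ s, x i : W 𝕜 m p) : X 𝕜 p m) = ∑ i ∈ s, (x i : X 𝕜 p m) :=
  map_sum (UniformSpace.Completion.toCompl (α := W 𝕜 m p)) x s

/-- The indicator function of the residue class of `r` mod `m ^ n`. -/
def ind (𝕜 : Type) [RCLike 𝕜] (p : ℝ) (m n r : ℕ) : W 𝕜 m p :=
  W.mk (fun i => if i % m ^ n = r then 1 else 0) ⟨n, fun i => by simp⟩

lemma ind_norm (n r : ℕ) (hr : r < m ^ n) : ‖ind 𝕜 p m n r‖ ≤ (3 / (m : ℝ)) ^ n := by
  have hper : Function.Periodic (ind 𝕜 p m n r).f (m ^ n) := fun i => by simp [ind]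
  rw [W.norm_def]
  refine (nu_le_self hP.hp hper).trans (le_of_eq ?_)
  unfold Am
  have : ∑ i ∈ range (m ^ n), ‖(ind 𝕜 p m n r).f i‖ ^ p = 1 := by
    rw [Finset.sum_eq_single r]
    · simp [ind, Nat.mod_eq_of_lt hr]
    · intro j hj hjr
      simp [ind, Nat.mod_eq_of_lt (Finset.mem_range.mp hj), hjr, Real.zero_rpow hP.hp.ne']
    · intro h
      exact absurd (Finset.mem_range.mpr hr) h
  rw [this, div_pow]
  ring

lemma decomp (x : W 𝕜 m p) {n : ℕ} (h : Function.Periodic x.f (m ^ n)) :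
    x = ∑ r ∈ range (m ^ n), x.f r • ind 𝕜 p m n r := by
  apply W.ext
  rw [W.sum_f]
  funext i
  rw [Finset.sum_apply, Finset.sum_eq_single (i % m ^ n)]
  · simp [ind, h.map_mod_nat]
  · intro j _ hj
    simp [ind]
    intro h
    exact absurd h.symm hj
  · intro h
    exact absurd (Finset.mem_range.mpr (Nat.mod_lt _ (pow_pos hP.hm n))) h

/-- Boundedness of a periodic function. -/
lemma bounded (x : W 𝕜 m p) : ∃ B : ℝ, 0 ≤ B ∧ ∀ i, ‖x.f i‖ ≤ B := by
  obtain ⟨k, hk⟩ := x.per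
  refine ⟨∑ r ∈ range (m ^ k), ‖x.f r‖, by positivity, ?_⟩
  intro i
  rw [← hk.map_mod_nat i]
  exact Finset.single_le_sum (f := fun r => ‖x.f r‖) (fun _ _ => norm_nonneg _)
    (Finset.mem_range.mpr (Nat.mod_lt _ (pow_pos hP.hm k)))

/-- The quasi-norm. -/
noncomputable def q (x : X 𝕜 p m) : ℝ := ‖x‖ ^ (1 / p)

lemma q_nonneg (x : X 𝕜 p m) : 0 ≤ q x := by unfold q; positivity

lemma q_pow (x : X 𝕜 p m) : q x ^ p = ‖x‖ := by
  unfold q
  rw [← Real.rpow_mul (norm_nonneg _), one_div, inv_mul_cancel₀ hP.hp.ne', Real.rpow_one]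

lemma q_smul (c : 𝕜) (x : X 𝕜 p m) : q (c • x) = ‖c‖ * q x := by
  unfold q
  rw [norm_smulX, Real.mul_rpow (by positivity) (norm_nonneg _), ← Real.rpow_mul (norm_nonneg _),
    mul_one_div_cancel hP.hp.ne', Real.rpow_one]

lemma q_eq_zero (x : X 𝕜 p m) : q x = 0 ↔ x = 0 := by
  unfold q
  have : (1 / p) ≠ 0 := by have := hP.hp; positivity
  rw [Real.rpow_eq_zero (norm_nonneg _) this, norm_eq_zero]

lemma q_lt_iff (x : X 𝕜 p m) {ε : ℝ} (hε : 0 < ε) : q x < ε ↔ ‖x‖ < ε ^ p := by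
  rw [← q_pow]
  exact (Real.rpow_lt_rpow_iff (q_nonneg x) hε.le hP.hp).symm

lemma q_le_iff (x : X 𝕜 p m) {ε : ℝ} (hε : 0 ≤ ε) : q x ≤ ε ↔ ‖x‖ ≤ ε ^ p := by
  rw [← q_pow]
  exact (Real.rpow_le_rpow_iff (q_nonneg x) hε hP.hp).symm

lemma q_add (x y : X 𝕜 p m) : q (x + y) ≤ (2 : ℝ) ^ (1 / p) * (q x + q y) := by
  have h0 : 0 < 1 / p := by have := hP.hp; positivity
  have h1 : ‖x + y‖ ≤ 2 * max ‖x‖ ‖y‖ := by
    have := norm_add_le x y
    have h2 := le_max_left ‖x‖ ‖y‖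
    have h3 := le_max_right ‖x‖ ‖y‖
    linarith
  have hmax : 0 ≤ max ‖x‖ ‖y‖ := le_max_of_le_left (norm_nonneg _)
  have h4 : q (x + y) ≤ (2 : ℝ) ^ (1 / p) * (max ‖x‖ ‖y‖) ^ (1 / p) := by
    unfold q
    rw [← Real.mul_rpow (by norm_num) hmax]
    exact Real.rpow_le_rpow (norm_nonneg _) h1 h0.le
  refine h4.trans (mul_le_mul_of_nonneg_left ?_ (by positivity))
  rcases le_total ‖x‖ ‖y‖ with h | h
  · rw [max_eq_right h]
    have := q_nonneg x
    change q y ≤ _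
    linarith
  · rw [max_eq_left h]
    have := q_nonneg y
    change q x ≤ _
    linarith

/-- Every functional which is bounded with respect to the quasi-norm vanishes. -/
theorem dual_zero (φ : X 𝕜 p m →ₗ[𝕜] 𝕜) (C : ℝ) (hC : ∀ x, ‖φ x‖ ≤ C * q x) : φ = 0 := by
  have hp := hP.hp
  have hm : (0 : ℝ) < m := by exact_mod_cast hP.hm
  have hC0 : 0 ≤ max C 0 := le_max_right _ _
  have hC' : ∀ x, ‖φ x‖ ≤ max C 0 * q x := fun x =>
    (hC x).trans (mul_le_mul_of_nonneg_right (le_max_left _ _) (q_nonneg x))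
  -- the crucial ratio
  set ρ : ℝ := m * (3 / (m : ℝ)) ^ (1 / p) with hρ
  have hρ1 : ρ < 1 := by
    have h1 : (3 : ℝ) / m < (m : ℝ) ^ (-p) := by
      rw [div_lt_iff₀ hm]
      have h2 : (m : ℝ) ^ (-p) * m = (m : ℝ) ^ (1 - p) := by
        nth_rewrite 2 [← Real.rpow_one (m : ℝ)]
        rw [← Real.rpow_add hm]
        congr 1
        ring
      rw [h2]
      exact hP.h3
    have h3 : ((3 : ℝ) / m) ^ (1 / p) < ((m : ℝ) ^ (-p)) ^ (1 / p) :=
      Real.rpow_lt_rpow (by positivity) h1 (by positivity)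
    rw [← Real.rpow_mul hm.le, neg_mul, mul_one_div_cancel hp.ne', Real.rpow_neg_one] at h3
    have h4 := mul_lt_mul_of_pos_left h3 hm
    rwa [mul_inv_cancel₀ hm.ne'] at h4
  have hρ0 : 0 ≤ ρ := by positivity
  have hW : ∀ x : W 𝕜 m p, φ (x : X 𝕜 p m) = 0 := by
    intro x
    obtain ⟨k, hk⟩ := x.per
    obtain ⟨B, hB0, hB⟩ := bounded x
    have hbound : ∀ j : ℕ, ‖φ (x : X 𝕜 p m)‖ ≤ (B * max C 0) * ρ ^ (k + j) := by
      intro j
      have hper := per_mono hk (Nat.le_add_right k j)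
      have hd := decomp x hper
      have hd2 : (x : X 𝕜 p m) = ∑ r ∈ range (m ^ (k + j)), x.f r • (ind 𝕜 p m (k + j) r : X 𝕜 p m) := by
        conv_lhs => rw [hd]
        rw [coe_sum]
        exact Finset.sum_congr rfl (fun r _ => UniformSpace.Completion.coe_smul _ _)
      rw [hd2, map_sum]
      refine (norm_sum_le _ _).trans ?_
      have hterm : ∀ r ∈ range (m ^ (k + j)), ‖φ (x.f r • (ind 𝕜 p m (k + j) r : X 𝕜 p m))‖
          ≤ B * (max C 0 * ((3 / (m : ℝ)) ^ (1 / p)) ^ (k + j)) := by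
        intro r hr
        rw [map_smul, norm_smul]
        refine mul_le_mul (hB r) ((hC' _).trans (mul_le_mul_of_nonneg_left ?_ hC0)) (norm_nonneg _) hB0
        unfold q
        rw [UniformSpace.Completion.norm_coe]
        refine (Real.rpow_le_rpow (norm_nonneg _) (ind_norm _ r (Finset.mem_range.mp hr))
          (by positivity)).trans (le_of_eq ?_)
        rw [← Real.rpow_natCast, ← Real.rpow_natCast, ← Real.rpow_mul (by positivity),
          ← Real.rpow_mul (by positivity), mul_comm]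
      refine (Finset.sum_le_sum hterm).trans (le_of_eq ?_)
      rw [Finset.sum_const, Finset.card_range, nsmul_eq_mul, hρ, mul_pow]
      push_cast
      ring
    have hlim : Tendsto (fun j : ℕ => (B * max C 0) * ρ ^ (k + j)) atTop (𝓝 0) := by
      have h1 : Tendsto (fun j : ℕ => ρ ^ (k + j)) atTop (𝓝 0) := by
        have h2 := tendsto_pow_atTop_nhds_zero_of_lt_one hρ0 hρ1
        have h3 := h2.comp (tendsto_add_atTop_nat k)
        refine h3.congr (fun j => ?_)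
        simp [add_comm]
      simpa using h1.const_mul (B * max C 0)
    have := ge_of_tendsto' hlim hbound
    exact norm_le_zero_iff.mp this
  -- density
  ext x
  rw [LinearMap.zero_apply]
  by_contra hne
  have hpos : 0 < ‖φ x‖ := norm_pos_iff.mpr hne
  set M := max C 0 + 1 with hM
  have hMpos : 0 < M := by positivity
  obtain ⟨v, hv⟩ := dense x (ε := (‖φ x‖ / M) ^ p) (by positivity)
  rw [← q_lt_iff _ (by positivity)] at hv
  have h1 : φ x = φ (x - (v : X 𝕜 p m)) := by rw [map_sub, hW v, sub_zero]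
  have h2 := hC' (x - (v : X 𝕜 p m))
  rw [← h1] at h2
  have h3 : max C 0 * q (x - (v : X 𝕜 p m)) ≤ M * q (x - (v : X 𝕜 p m)) :=
    mul_le_mul_of_nonneg_right (by linarith) (q_nonneg _)
  have h4 : M * q (x - (v : X 𝕜 p m)) < M * (‖φ x‖ / M) := mul_lt_mul_of_pos_left hv hMpos
  rw [mul_div_cancel₀ _ hMpos.ne'] at h4
  linarith

end Pool.Agent.X171.SC
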